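import Pool.Agent.H.MP_c6faf2_co.D

set_option autoImplicit false

namespace Pool.Agent.Results.MP_c6faf2_co.Yes
open Filter Topology

/-- `n * W(n) → e^γ`, where `W(n)` is the sum over the partitions of `n` of the reciprocal
supernorm; the `k`-th prime (`p_1 = 2`) is `Nat.nth Nat.Prime (k - 1)`. -/
theorem result : Tendsto (fun n : ℕ => (n : ℝ) * ∑ l : Nat.Partition n,
      1 / (((l.parts.map fun k => Nat.nth Nat.Prime (k - 1)).prod : ℕ) : ℝ))
    atTop (𝓝 (Real.exp Real.eulerMascheroniConstant)) :=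
  Pool.Agent.H.MP_c6faf2_co.final

end Pool.Agent.Results.MP_c6faf2_co.Yes
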